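import Pool.Agent.H60.DYc

/-! For every `n` a rational curve occurs as a component of `i_n⁻¹(Γ)` in `M_2^2[n]`. -/

open MvPolynomial Matrix H60.DY

set_option linter.unusedSectionVars false
set_option linter.style.haveILetI false

namespace Pool.Agent.Results.MP_6aac57_ag.Counter

variable {K L : Type} [CommRing K] [CommRing L]

/-- polarisation matrix of a quadratic map (its Jacobian) -/
noncomputable def Jm (f : Coef 2 2 → K) (P : Fin 3 → K) : Matrix (Fin 3) (Fin 3) K :=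
  Matrix.of fun i j => (app f (P + Pi.single j 1) - app f P - app f (Pi.single j 1)) i

lemma map_Jm (ρ : K →+* L) (f : Coef 2 2 → K) (P : Fin 3 → K) :
    ρ (Jm f P).det = (Jm (ρ ∘ f) (ρ ∘ P)).det := by
  rw [RingHom.map_det]
  congr 1
  ext i j
  have h1 := congrFun (map_app ρ f (P + Pi.single j 1)) i
  have h2 := congrFun (map_app ρ f P) i
  have h3 := congrFun (map_app ρ f (Pi.single j 1)) i
  have e1 : ρ ∘ (Pi.single j 1 : Fin 3 → K) = Pi.single j 1 := by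
    funext l; by_cases h : l = j <;> simp [h]
  have e2 : ρ ∘ (P + Pi.single j 1) = ρ ∘ P + Pi.single j 1 := by
    rw [← e1]; funext l; simp
  rw [e2] at h1
  rw [e1] at h3
  simp only [Function.comp] at h1 h2 h3
  simp only [Jm, RingHom.mapMatrix_apply, map_apply, of_apply, Pi.sub_apply, map_sub, h1, h2, h3]

lemma Jm_pf (u : Par → K) (P : Fin 3 → K) :
    (Jm (pf u) P).det = u (Sum.inr 0) ^ 3 * (mA u).det ^ 3 *
      (4 * ((mA u *ᵥ P) 0 * (mA u *ᵥ P) 1 *
        (2 * (mA u *ᵥ P) 2 + u (Sum.inr 2) * (mA u *ᵥ P) 0))) := by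
  set U := mA u *ᵥ P with hU
  let M : Matrix (Fin 3) (Fin 3) K :=
    !![2 * U 0, 0, 0; 0, 2 * U 1, 0; u (Sum.inr 2) * U 2, 0, 2 * U 2 + u (Sum.inr 2) * U 0]
  have hM : ∀ V, app (fc (u (Sum.inr 2))) (U + V) - app (fc (u (Sum.inr 2))) U
      - app (fc (u (Sum.inr 2))) V = M *ᵥ V := by
    intro V
    funext i
    fin_cases i <;> simp [app_fc, M, mulVec, dotProduct, Fin.sum_univ_three] <;> ring
  have : Jm (pf u) P = u (Sum.inr 0) • ((mA u).adjugate * M * mA u) := by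
    ext i j
    simp only [Jm, of_apply, app_pf, mulVec_add, ← hU]
    rw [← smul_sub, ← smul_sub, ← mulVec_sub, ← mulVec_sub, hM, mulVec_mulVec, mulVec_mulVec,
      mulVec_single_one]
    rfl
  rw [this, det_smul, det_mul, det_mul, det_adjugate, det_fin_three M]
  simp [M]; ring

/-- numerator of the invariant -/
noncomputable def num (n : ℕ) : RR :=
  (∏ k ∈ Finset.range n, (Jm ((X : Var 2 2 → RR) ∘ Sum.inl) (itU k)).det) * X (Sum.inr 0) ^ 3

lemma th_itU (ζ : ℂ) (k : ℕ) : (th ζ).toRingHom ∘ itU k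
    = rr (X : Par → SS) k • (mA (X : Par → SS)).adjugate *ᵥ ![1, (C ζ : SS) ^ 2 ^ k, 0] := by
  rw [← iter_pf]
  funext i
  rw [Function.comp, map_itU]
  simp [th, pw]

lemma th_num {n : ℕ} {ζ : ℂ} (hζ : IsPrimitiveRoot ζ (2 ^ n - 1)) :
    th ζ (num n) = C (∏ k ∈ Finset.range n, (4 * ζ ^ 2 ^ k)) * X (Sum.inr 2) ^ n
      * th ζ (itU n 0 ^ 3) := by
  have e0 : (th ζ).toRingHom ∘ ((X : Var 2 2 → RR) ∘ Sum.inl) = pf X := by
    funext s; simp [th, pw]
  have h1 : ∀ k, th ζ (Jm ((X : Var 2 2 → RR) ∘ Sum.inl) (itU k)).det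
      = (X (Sum.inr 0) * (mA X).det ^ 2 * rr X k) ^ 3 * (C (4 * ζ ^ 2 ^ k) * X (Sum.inr 2)) := by
    intro k
    have := map_Jm (th ζ).toRingHom ((X : Var 2 2 → RR) ∘ Sum.inl) (itU k)
    rw [e0, th_itU, Jm_pf, mA_line] at this
    refine this.trans ?_
    simp only [Pi.smul_apply, smul_eq_mul, cons_val_zero, cons_val_one, cons_val, map_mul, map_pow,
      map_ofNat]
    ring
  have h2 : ∀ m, (∏ k ∈ Finset.range m, (X (Sum.inr 0) * (mA X).det ^ 2 * rr X k))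
      * X (Sum.inr 1) = (rr X m : SS) := by
    intro m
    induction m with
    | zero => simp [rr]
    | succ m ih => rw [Finset.prod_range_succ, mul_right_comm, ih, rr]; ring
  have h3 := congrFun (th_itU ζ n) 0
  have h4 := congrFun (th_itU ζ 0) 0
  rw [← C_pow, zeta_pow hζ] at h3
  simp only [Function.comp, AlgHom.toRingHom_eq_coe, RingHom.coe_coe, Pi.smul_apply, smul_eq_mul,
    pow_zero, pow_one] at h3 h4
  have h5 : itU 0 0 = X (Sum.inr 0) := rfl
  rw [h5] at h4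
  rw [num, map_mul, map_prod, map_pow, map_pow, h3, h4, Finset.prod_congr rfl fun k _ => h1 k,
    Finset.prod_mul_distrib, Finset.prod_mul_distrib, Finset.prod_pow, ← h2 n, map_prod]
  simp only [rr, Finset.prod_const, Finset.card_range]
  ring

lemma th_den {n : ℕ} {ζ : ℂ} (hζ : IsPrimitiveRoot ζ (2 ^ n - 1)) : th ζ (itU n 0 ^ 3) ≠ 0 := by
  have h3 := congrFun (th_itU ζ n) 0
  have h4 := congrFun (th_itU ζ 0) 0
  rw [← C_pow, zeta_pow hζ] at h3
  simp only [Function.comp, AlgHom.toRingHom_eq_coe, RingHom.coe_coe, Pi.smul_apply, smul_eq_mul,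
    pow_zero, pow_one] at h3 h4
  have h6 := th_X0 ζ
  have h5 : itU 0 0 = X (Sum.inr 0) := rfl
  rw [← h5, h4] at h6
  rw [map_pow, h3]
  exact pow_ne_zero _ (mul_ne_zero (rr_ne _ nd_X n) (right_ne_zero_of_mul h6))

/-- polynomials in `c` -/
noncomputable def j0 : Polynomial ℂ →ₐ[ℂ] SS := Polynomial.aeval (X (Sum.inr 2))

/-- specialising all parameters but `c` -/
noncomputable def sb (u : Par → ℂ) : SS →ₐ[ℂ] Polynomial ℂ :=
  aeval (Function.update (fun s => Polynomial.C (u s)) (Sum.inr 2) Polynomial.X)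

lemma aeval_j0 {Y : Type} [CommRing Y] [Algebra ℂ Y] (u : Par → Y) (q : Polynomial ℂ) :
    aeval u (j0 q) = Polynomial.aeval (u (Sum.inr 2)) q := by
  rw [j0, ← Polynomial.aeval_algHom_apply, aeval_X]

lemma j0_inj : Function.Injective j0 := by
  refine Function.LeftInverse.injective (g := sb u1) fun q => ?_
  rw [sb, aeval_j0]; simp

lemma eval_sb (u : Par → ℂ) (c : ℂ) (p : SS) :
    Polynomial.aeval c (sb u p) = eval (Function.update u (Sum.inr 2) c) p := by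
  rw [sb, comp_aeval_apply]
  show aeval _ p = aeval _ p
  congr 2
  funext s
  by_cases h : s = Sum.inr 2
  · subst h; simp
  · simp [h]

lemma inv_imp {n : ℕ} (hn : 1 ≤ n) {ζ : ℂ} (hζ : IsPrimitiveRoot ζ (2 ^ n - 1)) (p q : RR)
    (hq : th ζ q ≠ 0) (h : ∀ w ∈ WW n ζ, ∀ w' ∈ WW n ζ, ConjPt w w' → eval w q ≠ 0 →
      eval w' q ≠ 0 → eval w p / eval w q = eval w' p / eval w' q) :
    ∃ p0 q0 : Polynomial ℂ, q0 ≠ 0 ∧ th ζ p * j0 q0 = j0 p0 * th ζ q := by
  obtain ⟨u0, hu0, hq0⟩ : ∃ u0, Nd u0 ∧ eval u0 (th ζ q) ≠ 0 := by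
    by_contra hc
    push Not at hc
    exact hq (zero_of_nd _ hc)
  have hq1 : sb u0 (th ζ q) ≠ 0 := fun h0 => by
    have := eval_sb u0 (u0 (Sum.inr 2)) (th ζ q)
    rw [h0, Function.update_eq_self, map_zero] at this
    exact hq0 this.symm
  refine ⟨sb u0 (th ζ p), sb u0 (th ζ q), hq1, ?_⟩
  have key : (th ζ p * j0 (sb u0 (th ζ q)) - j0 (sb u0 (th ζ p)) * th ζ q)
      * (th ζ q * j0 (sb u0 (th ζ q))) = 0 := by
    refine zero_of_nd _ fun u hu => ?_
    let u' := Function.update u0 (Sum.inr 2) (u (Sum.inr 2))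
    have hu' : Nd u' := by
      have e : mA u' = mA u0 := by ext i j; simp [mA, u']
      exact ⟨e ▸ hu0.1, by simpa [u'] using hu0.2.1, by simpa [u'] using hu0.2.2⟩
    have e1 : ∀ r : RR, eval u (j0 (sb u0 (th ζ r))) = eval (pw u' ζ) r := fun r => by
      rw [← eval_th, ← eval_sb]; exact aeval_j0 u _
    simp only [map_mul, map_sub, e1, eval_th]
    by_cases a1 : eval (pw u ζ) q = 0
    · simp [a1]
    by_cases a2 : eval (pw u' ζ) q = 0
    · simp [a2]
    have := h _ (pw_memW hn hζ u hu) _ (pw_memW hn hζ u' hu')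
      (conjPt_pw ζ u u' hu hu' (by simp [u'])) a1 a2
    rw [div_eq_div_iff a1 a2] at this
    rw [this, sub_self, zero_mul]
  have hne : th ζ q * j0 (sb u0 (th ζ q)) ≠ 0 :=
    mul_ne_zero hq fun h0 => hq1 (j0_inj (by rw [h0, map_zero]))
  exact sub_eq_zero.1 ((mul_eq_zero.1 key).resolve_right hne)

lemma imp_inv {n : ℕ} {ζ : ℂ} (p q : RR) (p0 q0 : Polynomial ℂ) (hq0 : q0 ≠ 0)
    (h : th ζ p * j0 q0 = j0 p0 * th ζ q) : ∀ w ∈ WW n ζ, ∀ w' ∈ WW n ζ, ConjPt w w' →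
      eval w q ≠ 0 → eval w' q ≠ 0 → eval w p / eval w q = eval w' p / eval w' q := by
  intro w hw w' _ hc a1 a2
  obtain ⟨α, β, M, rfl⟩ := conjPt_eq hc
  rw [div_eq_div_iff a1 a2, ← eval_tau, ← eval_tau, ← map_mul, ← map_mul, ← sub_eq_zero, ← map_sub]
  refine hw.2 _ ?_
  show th ζ _ = 0
  let σ : SS →ₐ[ℂ] SS := aeval (uact (C α) (C β) (M.map C) (X : Par → SS))
  have hσ : ∀ r, σ (j0 r) = j0 r := fun r => aeval_j0 _ r
  have h2 := congrArg σ h
  rw [map_mul, map_mul, hσ, hσ] at h2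
  have hj : j0 q0 ≠ 0 := fun h0 => hq0 (j0_inj (by rw [h0, map_zero]))
  refine mul_right_cancel₀ hj ?_
  rw [map_sub, map_mul, map_mul, th_tau, th_tau, zero_mul]
  show (th ζ p * σ (th ζ q) - σ (th ζ p) * th ζ q) * j0 q0 = 0
  linear_combination σ (th ζ q) * h - th ζ q * h2

lemma funField {n : ℕ} (hn : 1 ≤ n) {ζ : ℂ} (hζ : IsPrimitiveRoot ζ (2 ^ n - 1)) :
    ∃ ι : RatFunc ℂ →ₐ[ℂ] FunField (WW n ζ),
      Function.Injective ι ∧ Set.range ι = InvRat (WW n ζ) := by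
  have hI := van_WW hn hζ
  have hmem : ∀ a, a ∈ vanishingIdeal ℂ (WW n ζ) ↔ th ζ a = 0 := fun a => by rw [hI]; rfl
  haveI : (vanishingIdeal ℂ (WW n ζ)).IsPrime := hI ▸ RingHom.ker_isPrime _
  have hS := IsFractionRing.injective SS (FractionRing SS)
  let am : SS →ₐ[ℂ] FractionRing SS := IsScalarTower.toAlgHom ℂ SS _
  let θq : (RR ⧸ vanishingIdeal ℂ (WW n ζ)) →ₐ[ℂ] FractionRing SS :=
    Ideal.Quotient.liftₐ _ (am.comp (th ζ)) fun a ha => by
      show am (th ζ a) = 0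
      rw [(hmem a).1 ha, map_zero]
  have hθq : Function.Injective θq := by
    rw [injective_iff_map_eq_zero]
    intro x hx
    obtain ⟨a, rfl⟩ := Ideal.Quotient.mk_surjective x
    rw [Ideal.Quotient.eq_zero_iff_mem, hmem]
    exact hS (by rw [map_zero]; exact hx)
  let θ : FunField (WW n ζ) →ₐ[ℂ] FractionRing SS := IsFractionRing.liftAlgHom hθq
  have hθ : ∀ p, θ (cls _ p) = am (th ζ p) := fun p => IsFractionRing.lift_algebraMap hθq _
  have hθi : Function.Injective θ := θ.toRingHom.injective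
  have hj0 : Function.Injective (am.comp j0) := hS.comp j0_inj
  let j : RatFunc ℂ →ₐ[ℂ] FractionRing SS := RatFunc.liftAlgHom (am.comp j0)
    (nonZeroDivisors_le_comap_nonZeroDivisors_of_injective _ hj0)
  have hj : ∀ p q : Polynomial ℂ, j (algebraMap _ _ p / algebraMap _ _ q)
      = am (j0 p) / am (j0 q) := fun p q => RatFunc.liftAlgHom_apply_div _ _ p q
  let F : IntermediateField ℂ (RatFunc ℂ) := θ.fieldRange.comap j
  have hF : F ≠ ⊥ := by
    let κ := ∏ k ∈ Finset.range n, (4 * ζ ^ 2 ^ k)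
    have hκ : κ ≠ 0 := Finset.prod_ne_zero_iff.2 fun k _ =>
      mul_ne_zero (by norm_num) (pow_ne_zero _ (zeta_ne hn hζ))
    let g : Polynomial ℂ := Polynomial.C κ * Polynomial.X ^ n
    have hg : algebraMap (Polynomial ℂ) (RatFunc ℂ) g ∈ F := by
      refine ⟨cls _ (num n) / cls _ (itU n 0 ^ 3), ?_⟩
      have h1 := hj g 1
      rw [map_one, div_one, map_one, map_one, div_one] at h1
      have h2 : am (th ζ (itU n 0 ^ 3)) ≠ 0 := fun h0 => th_den hζ (hS (by rw [map_zero]; exact h0))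
      show θ _ = j _
      rw [h1, map_div₀, hθ, hθ, th_num hζ, map_mul, mul_div_cancel_right₀ _ h2]
      simp [g, j0, κ]
    intro hb
    rw [hb, IntermediateField.mem_bot] at hg
    obtain ⟨c, hc⟩ := hg
    rw [IsScalarTower.algebraMap_apply ℂ (Polynomial ℂ) (RatFunc ℂ)] at hc
    have := congrArg Polynomial.natDegree (RatFunc.algebraMap_injective ℂ hc)
    rw [Polynomial.natDegree_C_mul_X_pow _ _ hκ] at this
    simp at this
    omega
  let e := RatFunc.Luroth.algEquiv hF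
  let φ : RatFunc ℂ →ₐ[ℂ] FractionRing SS := j.comp (F.val.comp e.toAlgHom)
  have hφ : ∀ r, φ r ∈ θ.range := fun r => (e r).2
  let ι : RatFunc ℂ →ₐ[ℂ] FunField (WW n ζ) :=
    (AlgEquiv.ofInjective θ hθi).symm.toAlgHom.comp (φ.codRestrict θ.range hφ)
  have hι : ∀ r, θ (ι r) = j (e r) := fun r =>
    congrArg Subtype.val ((AlgEquiv.ofInjective θ hθi).apply_symm_apply ⟨φ r, hφ r⟩)
  refine ⟨ι, ι.toRingHom.injective, ?_⟩
  ext x
  constructor
  · rintro ⟨r, rfl⟩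
    obtain ⟨a, b, hb, hab⟩ := IsFractionRing.div_surjective
      (A := RR ⧸ vanishingIdeal ℂ (WW n ζ)) (ι r)
    obtain ⟨p, rfl⟩ := Ideal.Quotient.mk_surjective a
    obtain ⟨q, rfl⟩ := Ideal.Quotient.mk_surjective b
    have hq : q ∉ vanishingIdeal ℂ (WW n ζ) := fun h =>
      nonZeroDivisors.ne_zero hb (Ideal.Quotient.eq_zero_iff_mem.2 h)
    have hq' : am (th ζ q) ≠ 0 := fun h0 => hq ((hmem q).2 (hS (by rw [map_zero]; exact h0)))
    have hab' : cls _ p / cls _ q = ι r := hab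
    have hcq : cls (WW n ζ) q ≠ 0 := fun h0 => hq' (by rw [← hθ, h0, map_zero])
    refine ⟨p, q, ⟨hq, show _ * cls _ q = cls _ p by rw [← hab', div_mul_cancel₀ _ hcq]⟩,
      imp_inv p q (e r : RatFunc ℂ).num (e r : RatFunc ℂ).denom (RatFunc.denom_ne_zero _) ?_⟩
    have h1 := hι r
    have hd : am (j0 (e r : RatFunc ℂ).denom) ≠ 0 := fun h0 =>
      RatFunc.denom_ne_zero _ (hj0 (by rw [map_zero]; exact h0))
    rw [← hab', map_div₀, hθ, hθ, ← RatFunc.num_div_denom (e r : RatFunc ℂ), hj,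
      div_eq_div_iff hq' hd, ← map_mul, ← map_mul] at h1
    exact hS h1
  · rintro ⟨p, q, ⟨hq, hx'⟩, hinv⟩
    have hx : x * cls _ q = cls _ p := hx'
    have hq1 : th ζ q ≠ 0 := fun h0 => hq ((hmem q).2 h0)
    have hq' : am (th ζ q) ≠ 0 := fun h0 => hq1 (hS (by rw [map_zero]; exact h0))
    obtain ⟨p0, q0, hq0, h⟩ := inv_imp hn hζ p q hq1 hinv
    have hd : am (j0 q0) ≠ 0 := fun h0 => hq0 (hj0 (by rw [map_zero]; exact h0))
    have h1 : θ x = j (algebraMap (Polynomial ℂ) _ p0 / algebraMap (Polynomial ℂ) _ q0) := by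
      have h2 := congrArg θ hx
      rw [map_mul, hθ, hθ] at h2
      have h3 := congrArg am h
      rw [map_mul, map_mul, ← h2] at h3
      rw [hj, eq_div_iff hd]
      exact mul_right_cancel₀ hq' (by linear_combination h3)
    refine ⟨e.symm ⟨_, ⟨x, h1⟩⟩, hθi ?_⟩
    rw [hι, AlgEquiv.apply_symm_apply, h1]

theorem result (n : ℕ) (hn : 1 ≤ n) :
    ∃ Γ : Set (Coef 2 2 → ℂ), ZClosedIn (End 2 2) Γ ∧ ZIrred Γ ∧
      (∀ f ∈ Γ, ∀ g M, ConjBy M f g → g ∈ Γ) ∧
      ∃ W : Set (Var 2 2 → ℂ),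
        IsComponent {w | w ∈ EndPer 2 2 n ∧ (w ∘ Sum.inl) ∈ Γ} W ∧
        (∀ w ∈ W, ∀ w', ConjPt w w' → w' ∈ W) ∧
        IsRatField (vanishingIdeal ℂ W) (InvRat W) := by
  have h2 : 2 ^ n - 1 ≠ 0 := by
    have := Nat.one_lt_two_pow_iff.2 (show n ≠ 0 by omega)
    omega
  have hζ := Complex.isPrimitiveRoot_exp (2 ^ n - 1) h2
  set ζ := Complex.exp (2 * Real.pi * Complex.I / ((2 ^ n - 1 : ℕ) : ℂ))
  refine ⟨Gam, ⟨_, rfl⟩, ?_, fun f hf g M h => gam_conj h hf, WW n ζ, ⟨⟨_, rfl⟩, ?_, ?_⟩,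
    fun w hw w' h => ww_conj h hw, funField hn hζ⟩
  · rw [ZIrred, van_Gam]; exact RingHom.ker_isPrime _
  · rw [ZIrred, van_WW hn hζ]; exact RingHom.ker_isPrime _
  · rintro W' ⟨I, hI⟩ hirr hsub
    have hW : W' ⊆ Pre n := fun w hw => by rw [hI] at hw; exact hw.1
    exact Set.Subset.antisymm
      (fun w hw => ⟨hW hw, fun p hp => maximal hn hζ W' hW hirr hsub p hp w hw⟩) hsub

end Pool.Agent.Results.MP_6aac57_ag.Counter
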